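import Pool.Prelude.Def_H_02624fa1
import Pool.Agent.Lib.MP_f6ab77_co.ConstUpper
import Pool.Agent.Lib.MP_f6ab77_co.ConstLower

set_option autoImplicit false

namespace Pool.Agent.Results.MP_f6ab77_co.ConstantOne

open Pool.Agent.Lib.MP_f6ab77_co

/-- Let `t, r ≥ 2`.

(a) Let `q` be a prime power and let `m 0 ≤ (r - 1) q^(r^(t-1))` and `m i ≤ q^(2 r^(t-1-i))` for
`1 ≤ i < t`. The transversals of the parts (of `m 0, ..., m (t-1)` vertices) can be coloured with
`q` colours such that no colour class contains `K_t(r)`, and some colour class has at least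
`(∏ m i) / q` edges.

(b) For all sizes `m i ≥ 1` and every real `x > 0` with `(r - 1) x^(r^(t-1)) ≤ m 0`, every
`t`-partite `t`-graph with parts of `m 0, ..., m (t-1)` vertices without a copy of `K_t(r)` has at
most `(∏ m i) / x * (1 + (r - 1) ∑_{1 ≤ i < t} x^(r^(t-1-i)) / m i)` edges. -/
theorem result (t r : ℕ) (ht : 2 ≤ t) (hr : 2 ≤ r) :
    (∀ q : ℕ, IsPrimePow q → ∀ m : Fin t → ℕ,
      m ⟨0, by omega⟩ ≤ (r - 1) * q ^ (r ^ (t - 1)) →
      (∀ i : Fin t, 1 ≤ (i : ℕ) → m i ≤ q ^ (2 * r ^ (t - 1 - (i : ℕ)))) →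
      ∃ c : (∀ i, Fin (m i)) → Fin q,
        (∀ z, ¬ (colourClass c z).ContainsCompletePartiteHypergraph t r) ∧
        ∃ z, ∏ i, m i ≤ q * (colourClass c z).card) ∧
    (∀ x : ℝ, 0 < x → ∀ m : Fin t → ℕ, (∀ i, 1 ≤ m i) →
      ((r : ℝ) - 1) * x ^ (r ^ (t - 1)) ≤ m ⟨0, by omega⟩ →
      ∀ H : Finset (Finset (Σ i : Fin t, Fin (m i))), IsPartite H →
        ¬ H.ContainsCompletePartiteHypergraph t r →
        x * (H.card : ℝ) ≤ (∏ i, (m i : ℝ)) *
          (1 + ((r : ℝ) - 1) *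
            ∑ i ∈ Finset.univ.filter (fun i : Fin t => 1 ≤ (i : ℕ)),
              x ^ (r ^ (t - 1 - (i : ℕ))) / (m i : ℝ))) := by
  obtain ⟨s, rfl⟩ : ∃ s, t = s + 1 := ⟨t - 1, by omega⟩
  constructor
  · intro q hq m h0 hm
    exact const_lower_hyp r hr s q hq m h0 (fun i hi => by simpa using hm i hi)
  · intro x hx m hm1 h0 H hH hfree
    obtain ⟨E, hE, hEfree, hcard⟩ := box_form s r (by omega) m H hH hfree
    have h := const_upper r hr s x m hx (by simpa using h0) hm1 E hE hEfree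
    rw [hcard]
    have hs : ∑ i ∈ Finset.univ.filter (fun i : Fin (s + 1) => 1 ≤ (i : ℕ)),
        x ^ (r ^ (s + 1 - 1 - (i : ℕ))) / (m i : ℝ) =
        ∑ i : Fin s, x ^ (r ^ (s - 1 - (i : ℕ))) / (m i.succ : ℝ) := by
      rw [Finset.sum_filter, Fin.sum_univ_succ, if_neg (by simp), zero_add]
      apply Finset.sum_congr rfl
      intro i _
      rw [if_pos (by rw [Fin.val_succ]; omega), Fin.val_succ,
        show s + 1 - 1 - ((i : ℕ) + 1) = s - 1 - (i : ℕ) by omega]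
    rw [hs]
    exact h

end Pool.Agent.Results.MP_f6ab77_co.ConstantOne
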