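import Pool.Prelude.Def_H_02624fa1
import Pool.Agent.Lib.MP_f6ab77_co.BernUpper
import Pool.Agent.Lib.MP_f6ab77_co.PairsCore

set_option autoImplicit false

namespace Pool.Agent.Results.MP_f6ab77_co.SharpRange

open Pool.Agent.Lib.MP_f6ab77_co

/-- Let `t ≥ 2`, let `q` be a prime power, and let `J` be a set of indices `i` such that the pairs
`{i, i+1}`, `i ∈ J`, are disjoint and contained in `{1, ..., t-1}`. Let the sizes `m i ≥ 1` be such
that `m 0 = q^(2^(t-1))`, `m i, m (i+1) ≤ q^(3 * 2^(t-2-i))` for `i ∈ J`, and `m i ≤ q^(2^(t-i))`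
for the `i ≥ 1` that lie in no pair. Some `t`-partite `t`-graph with parts of `m 0, ..., m (t-1)`
vertices has no copy of `K_t(2)` and at least `(1 - 3/q) (∏ m i) / q` edges, and every `t`-partite
`t`-graph with these parts and no copy of `K_t(2)` has at most
`(1 + ∑_{1 ≤ i < t} q^(2^(t-1-i)) / (2^(t-1-i) m i)) (∏ m i) / q` edges. -/
theorem result (t : ℕ) (ht : 2 ≤ t) (q : ℕ) (hq : IsPrimePow q) (m : ℕ → ℕ)
    (hm : ∀ i, i < t → 1 ≤ m i) (J : Finset ℕ)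
    (hJ : ∀ i ∈ J, 1 ≤ i ∧ i + 1 < t ∧ i + 1 ∉ J) (h0 : m 0 = q ^ (2 ^ (t - 1)))
    (h1 : ∀ i ∈ J, m i ≤ q ^ (3 * 2 ^ (t - 2 - i)) ∧ m (i + 1) ≤ q ^ (3 * 2 ^ (t - 2 - i)))
    (h2 : ∀ i, 1 ≤ i → i < t → i ∉ J → i - 1 ∉ J → m i ≤ q ^ (2 ^ (t - i))) :
    (∃ H : Finset (Finset (Σ i : Fin t, Fin (m i))), IsPartite H ∧
        ¬ H.ContainsCompletePartiteHypergraph t 2 ∧
        (1 - 3 / (q : ℝ)) * (∏ i ∈ Finset.range t, (m i : ℝ)) ≤ (q : ℝ) * (H.card : ℝ)) ∧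
    (∀ H : Finset (Finset (Σ i : Fin t, Fin (m i))), IsPartite H →
        ¬ H.ContainsCompletePartiteHypergraph t 2 →
        (q : ℝ) * (H.card : ℝ) ≤ (∏ i ∈ Finset.range t, (m i : ℝ)) *
          (1 + ∑ i ∈ Finset.Ico 1 t,
            (q : ℝ) ^ (2 ^ (t - 1 - i)) / ((2 : ℝ) ^ (t - 1 - i) * (m i : ℝ)))) := by
  constructor
  · exact constr_hyp t q hq m (constr_all t t le_rfl (by omega) q hq m J hJ h0.le h2 h1)
  · obtain ⟨s, rfl⟩ : ∃ s, t = s + 1 := ⟨t - 1, by omega⟩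
    intro H hH hfree
    obtain ⟨E, hE, hEfree, hcard⟩ := box_form s 2 (by omega) (fun i : Fin (s + 1) => m i) H hH hfree
    have hq0 : (0 : ℝ) < q := by exact_mod_cast hq.pos
    have h := bern_upper 2 le_rfl s q (fun i : Fin (s + 1) => m i) hq0 (by
      have e : m ((0 : Fin (s + 1)) : ℕ) = q ^ (2 ^ (s + 1 - 1)) := h0
      rw [Nat.add_sub_cancel] at e
      rw [e]
      push_cast
      norm_num) (fun i => hm i i.isLt) E hE hEfree
    rw [hcard]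
    have hs1 : ∑ i ∈ Finset.Ico 1 (s + 1),
        (q : ℝ) ^ (2 ^ (s + 1 - 1 - i)) / ((2 : ℝ) ^ (s + 1 - 1 - i) * (m i : ℝ)) =
        ∑ i : Fin s, (q : ℝ) ^ (2 ^ (s - 1 - (i : ℕ))) /
          ((2 : ℝ) ^ (s - 1 - (i : ℕ)) * (m (i.succ : Fin (s + 1)) : ℝ)) := by
      rw [Finset.sum_Ico_eq_sum_range, Nat.add_sub_cancel, Finset.sum_range]
      apply Finset.sum_congr rfl
      intro i _
      rw [Fin.val_succ, show s - (1 + (i : ℕ)) = s - 1 - (i : ℕ) by omega,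
        show 1 + (i : ℕ) = (i : ℕ) + 1 by omega]
    have hs2 : (∏ i ∈ Finset.range (s + 1), (m i : ℝ)) =
        ∏ i : Fin (s + 1), ((m (i : ℕ) : ℕ) : ℝ) := by
      rw [Finset.prod_range]
    rw [hs1, hs2]
    push_cast at h
    have e2 : (2 : ℝ) - 1 = 1 := by norm_num
    rw [e2, one_mul] at h
    exact h

end Pool.Agent.Results.MP_f6ab77_co.SharpRange
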