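import Pool.Prelude.Def_H_02624fa1
import Pool.Agent.Lib.MP_f6ab77_co.PairsAllN

set_option autoImplicit false

namespace Pool.Agent.Results.MP_f6ab77_co.ThreeQuarters

open Pool.Agent.Lib.MP_f6ab77_co

/-- Let `t ≥ 2` and let `J` be a set of indices `i` such that the pairs `{i, i+1}`, `i ∈ J`, are
disjoint and contained in `{1, ..., t-1}`. Let the sizes `m i ≥ 1` satisfy `m i ≥ (m 0)^(1/2^i)` for
all `i < t`, `m i, m (i+1) ≤ (m 0)^(3/2^(i+1))` for `i ∈ J`, and `m i ≤ (m 0)^(2/2^i)` for the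
`i ≥ 1` that lie in no pair. Some `t`-partite `t`-graph with parts of `m 0, ..., m (t-1)` vertices
has no copy of `K_t(2)` and at least `(1/15) (∏ m i) (m 0)^(-2^(1-t))` edges, and every `t`-partite
`t`-graph with these parts and no copy of `K_t(2)` has at most `4 (∏ m i) (m 0)^(-2^(1-t))`
edges. -/
theorem result (t : ℕ) (ht : 2 ≤ t) (m : ℕ → ℕ) (hm : ∀ i, i < t → 1 ≤ m i) (J : Finset ℕ)
    (hJ : ∀ i ∈ J, 1 ≤ i ∧ i + 1 < t ∧ i + 1 ∉ J)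
    (hlo : ∀ i, i < t → m 0 ≤ (m i) ^ (2 ^ i))
    (h1 : ∀ i ∈ J, (m i) ^ (2 ^ (i + 1)) ≤ (m 0) ^ 3 ∧ (m (i + 1)) ^ (2 ^ (i + 1)) ≤ (m 0) ^ 3)
    (h2 : ∀ i, 1 ≤ i → i < t → i ∉ J → i - 1 ∉ J → (m i) ^ (2 ^ i) ≤ (m 0) ^ 2) :
    (∃ H : Finset (Finset (Σ i : Fin t, Fin (m i))), IsPartite H ∧
        ¬ H.ContainsCompletePartiteHypergraph t 2 ∧
        (1 / 15 : ℝ) * (∏ i ∈ Finset.range t, (m i : ℝ)) *
          (m 0 : ℝ) ^ (-(2 : ℝ) ^ (1 - (t : ℝ))) ≤ (H.card : ℝ)) ∧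
    (∀ H : Finset (Finset (Σ i : Fin t, Fin (m i))), IsPartite H →
        ¬ H.ContainsCompletePartiteHypergraph t 2 →
        (H.card : ℝ) ≤ 4 * (∏ i ∈ Finset.range t, (m i : ℝ)) *
          (m 0 : ℝ) ^ (-(2 : ℝ) ^ (1 - (t : ℝ)))) := by
  constructor
  · exact pairs_lower t ht m (hm 0 (by omega)) J hJ h1 h2
  · obtain ⟨s, rfl⟩ : ∃ s, t = s + 1 := ⟨t - 1, by omega⟩
    intro H hH hfree
    have h := upper s 2 le_rfl (fun i : Fin (s + 1) => m i) (fun i => hm i i.isLt)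
      (fun i => hlo i i.isLt) H hH hfree
    have hs2 : (∏ i ∈ Finset.range (s + 1), (m i : ℝ)) =
        ∏ i : Fin (s + 1), ((m (i : ℕ) : ℕ) : ℝ) := by
      rw [Finset.prod_range]
    rw [hs2]
    have e : (2 : ℝ) * ((2 : ℕ) : ℝ) = 4 := by norm_num
    rw [e] at h
    exact h

end Pool.Agent.Results.MP_f6ab77_co.ThreeQuarters
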