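import Pool.Prelude.Def_H_02624fa1
import Pool.Agent.Lib.MP_f6ab77_co.Tail

set_option autoImplicit false

namespace Pool.Agent.Results.MP_f6ab77_co.UnequalParts

open Pool.Agent.Lib.MP_f6ab77_co

/-- Let `t, r ≥ 2` and consider `t`-partite `t`-graphs with parts of arbitrary sizes
`m 0, ..., m (t-1) ≥ 1`. Let `j` be an index for which `(m j)^(r^j)` is smallest, and suppose that
`(m i)^(r^(i-j)) ≤ (m j)^2` for all `i > j` (nothing else is assumed about the parts before `j`).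
The transversals can be coloured with at most `16 (m j)^(r^(1+j-t))` colours such that no colour
class contains `K_t(r)`, and one of the colour classes has at least
`(1/16) (∏ m i) (m j)^(-r^(1+j-t))` edges; every `t`-partite `t`-graph without a copy of `K_t(r)`
has at most `2 r (∏ m i) (m j)^(-r^(1+j-t))` edges. -/
theorem result (t r : ℕ) (ht : 2 ≤ t) (hr : 2 ≤ r) (m : Fin t → ℕ) (hm : ∀ i, 1 ≤ m i)
    (j : Fin t) (hj : ∀ i : Fin t, (m j) ^ (r ^ (j : ℕ)) ≤ (m i) ^ (r ^ (i : ℕ)))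
    (hhi : ∀ i : Fin t, (j : ℕ) < (i : ℕ) → (m i) ^ (r ^ ((i : ℕ) - (j : ℕ))) ≤ (m j) ^ 2) :
    (∃ (P : ℕ) (c : (∀ i, Fin (m i)) → Fin P),
        (P : ℝ) ≤ 16 * (m j : ℝ) ^ ((r : ℝ) ^ (1 + ((j : ℕ) : ℝ) - (t : ℝ))) ∧
        (∀ z, ¬ (colourClass c z).ContainsCompletePartiteHypergraph t r) ∧
        ∃ z, (1 / 16 : ℝ) * (∏ i, (m i : ℝ)) *
            (m j : ℝ) ^ (-(r : ℝ) ^ (1 + ((j : ℕ) : ℝ) - (t : ℝ))) ≤
          ((colourClass c z).card : ℝ)) ∧
    (∀ H : Finset (Finset (Σ i : Fin t, Fin (m i))), IsPartite H →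
        ¬ H.ContainsCompletePartiteHypergraph t r →
        (H.card : ℝ) ≤ 2 * r * (∏ i, (m i : ℝ)) *
          (m j : ℝ) ^ (-(r : ℝ) ^ (1 + ((j : ℕ) : ℝ) - (t : ℝ)))) := by
  obtain ⟨j, hjt⟩ := j
  obtain ⟨k, rfl⟩ : ∃ k, t = j + k + 1 := ⟨t - j - 1, by omega⟩
  exact ⟨lower_tail j k r hr m hm hhi, fun H hH hf => upper_tail j k r hr m hm hj H hH hf⟩

end Pool.Agent.Results.MP_f6ab77_co.UnequalParts
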